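import Pool.Agent.W385.GA.Sq2

/-!
# The Artin twists of an automorphic Euler product at the edge

`F` is a number field (the problem is the case `F = ℚ`), `Γ` a group (the complex `L`-group, for
instance `GSpin_{2n+1}(ℂ)`), `r : Γ → GL(V)` any finite-dimensional complex representation, and
`c v ∈ Γ` a family of elements indexed by the finite places of `F` (the Satake classes of an
automorphic representation `π`).  All that is used about the family is that, for a finite set `S₀` of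
places and a real number `w`, the eigenvalues of `r (c v)` have absolute value `≤ q_v ^ w` for
`v ∉ S₀`.  Every automorphic representation has this property for some `w`, and a tempered one has it
with `w = 0`.

An Artin representation `A` of `F` is a representation of `Gal(F̄/F)` on `ℂⁿ` that is trivial on an
open subgroup.  The twists `L(s, π, r ⊗ A)` contain the `L`-functions of the base changes of `π` to
all finite extensions of `F`, twisted by all Artin representations of these.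
-/

set_option autoImplicit false

namespace Pool.Agent.Results.MP_eea520_nt.EdgeAllTwists

open NumberField IsDedekindDomain Filter Topology Polynomial
open Pool.Agent.W385.GA (ArtinRep homDim)

/-- `σ` is a Frobenius element at the prime `v` of `F`: there is a maximal ideal `Q` above `v` of the
ring of all algebraic integers with `σ x ≡ x ^ q_v` modulo `Q` for all `x`. -/
def IsFrobenius {F : Type} [Field F] [NumberField F] (v : HeightOneSpectrum (𝓞 F))
    (σ : Gal(AlgebraicClosure F/F)) : Prop :=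
  ∃ Q : Ideal (𝓞 (AlgebraicClosure F)), Q.IsMaximal ∧
    Q.comap (algebraMap (𝓞 F) (𝓞 (AlgebraicClosure F))) = v.asIdeal ∧
    ∀ x : 𝓞 (AlgebraicClosure F), σ • x - x ^ Ideal.absNorm v.asIdeal ∈ Q

/-- The representation `A` is unramified at `v`: the inertia groups of the maximal ideals above `v`
act trivially. -/
def Unramified {F : Type} [Field F] [NumberField F] (A : ArtinRep F)
    (v : HeightOneSpectrum (𝓞 F)) : Prop :=
  ∀ Q : Ideal (𝓞 (AlgebraicClosure F)), Q.IsMaximal →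
    Q.comap (algebraMap (𝓞 F) (𝓞 (AlgebraicClosure F))) = v.asIdeal →
    ∀ g : Gal(AlgebraicClosure F/F), (∀ x : 𝓞 (AlgebraicClosure F), g • x - x ∈ Q) → A.ρ g = 1

/-- The eigenvalues of `r (c v)` have absolute value `≤ q_v ^ w` for `v ∉ S₀`. -/
def EigenBound {F Γ V : Type} [Field F] [NumberField F] [Group Γ] [AddCommGroup V] [Module ℂ V]
    (r : Representation ℂ Γ V) (c : HeightOneSpectrum (𝓞 F) → Γ)
    (S₀ : Finset (HeightOneSpectrum (𝓞 F))) (w : ℝ) : Prop :=
  ∀ v, v ∉ S₀ → ∀ l : ℂ, Module.End.HasEigenvalue (r (c v)) l →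
    ‖l‖ ≤ (Ideal.absNorm v.asIdeal : ℝ) ^ w

/-- The local factor `det(1 - (C ⊗ E) z)⁻¹`. -/
noncomputable def localFactor {V W : Type} [AddCommGroup V] [Module ℂ V] [AddCommGroup W]
    [Module ℂ W] (C : Module.End ℂ V) (E : Module.End ℂ W) (z : ℂ) : ℂ :=
  (LinearMap.det (1 - z • (TensorProduct.map C E : Module.End ℂ (TensorProduct ℂ V W))))⁻¹

open Classical in
/-- The Euler product `L(s, π, r ⊗ A)`, with the factor `det(1 - r(c_v) ⊗ A(Frob_v) q_v^{-s})⁻¹` at
`v ∉ S`, where `Frob_v` is the geometric Frobenius, the inverse of `frob v`; at the places of the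
finite set `S` the factor is `B_v(q_v^{-s})⁻¹` for some polynomial `B_v`. -/
noncomputable def LFun {F Γ V : Type} [Field F] [NumberField F] [Group Γ] [AddCommGroup V]
    [Module ℂ V] (r : Representation ℂ Γ V) (c : HeightOneSpectrum (𝓞 F) → Γ)
    (frob : HeightOneSpectrum (𝓞 F) → Gal(AlgebraicClosure F/F)) (A : ArtinRep F)
    (S : Finset (HeightOneSpectrum (𝓞 F))) (B : HeightOneSpectrum (𝓞 F) → ℂ[X]) (s : ℂ) : ℂ :=
  ∏' v : HeightOneSpectrum (𝓞 F),
    if v ∈ S then ((B v).eval (((Ideal.absNorm v.asIdeal : ℕ) : ℂ) ^ (-s)))⁻¹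
    else localFactor (r (c v)) (A.ρ (frob v)⁻¹) (((Ideal.absNorm v.asIdeal : ℕ) : ℂ) ^ (-s))

open Classical in
/-- The Euler product `L(s, π, r ⊗ r̄)`, with the factor `∏_{i,j} (1 - α_i ᾱ_j q_v^{-s})⁻¹` at
`v ∉ S`, where `α_1, α_2, …` are the eigenvalues of `r (c v)`; at the places of the finite set `S` the
factor is `B_v(q_v^{-s})⁻¹` for some polynomial `B_v`. -/
noncomputable def LSquare {F Γ V : Type} [Field F] [NumberField F] [Group Γ] [AddCommGroup V]
    [Module ℂ V] [FiniteDimensional ℂ V] (r : Representation ℂ Γ V)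
    (c : HeightOneSpectrum (𝓞 F) → Γ) (S : Finset (HeightOneSpectrum (𝓞 F)))
    (B : HeightOneSpectrum (𝓞 F) → ℂ[X]) (s : ℂ) : ℂ :=
  ∏' v : HeightOneSpectrum (𝓞 F),
    if v ∈ S then ((B v).eval (((Ideal.absNorm v.asIdeal : ℕ) : ℂ) ^ (-s)))⁻¹
    else (((LinearMap.charpoly (r (c v))).roots ×ˢ (LinearMap.charpoly (r (c v))).roots).map
      fun x => 1 - x.1 * (starRingEnd ℂ) x.2 * ((Ideal.absNorm v.asIdeal : ℕ) : ℂ) ^ (-s)).prod⁻¹

/-- The point `1 + w + iτ` of the edge. -/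
noncomputable def edgePoint (w τ : ℝ) : ℂ := w + 1 + τ * Complex.I

/-- `L` is the `L`-function of `r ⊗ A`: its Euler product, with polynomials that do not vanish at the
points of the edge as factors at a finite set of places, which contains `S₀` and the places where `A`
is ramified. -/
def IsLFunction {F Γ V : Type} [Field F] [NumberField F] [Group Γ] [AddCommGroup V]
    [Module ℂ V] (r : Representation ℂ Γ V) (c : HeightOneSpectrum (𝓞 F) → Γ)
    (frob : HeightOneSpectrum (𝓞 F) → Gal(AlgebraicClosure F/F))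
    (S₀ : Finset (HeightOneSpectrum (𝓞 F))) (w : ℝ) (A : ArtinRep F) (L : ℂ → ℂ) : Prop :=
  ∃ (S : Finset (HeightOneSpectrum (𝓞 F))) (B : HeightOneSpectrum (𝓞 F) → ℂ[X]), S₀ ⊆ S ∧
    (∀ v, v ∉ S → Unramified A v) ∧
    (∀ v ∈ S, ∀ τ : ℝ, (B v).eval (((Ideal.absNorm v.asIdeal : ℕ) : ℂ) ^ (-edgePoint w τ)) ≠ 0) ∧
    L = LFun r c frob A S B

/-- `L` is the `L`-function of `r ⊗ r̄`. -/
def IsLSquare {F Γ V : Type} [Field F] [NumberField F] [Group Γ] [AddCommGroup V]
    [Module ℂ V] [FiniteDimensional ℂ V] (r : Representation ℂ Γ V)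
    (c : HeightOneSpectrum (𝓞 F) → Γ) (S₀ : Finset (HeightOneSpectrum (𝓞 F))) (w : ℝ)
    (L : ℂ → ℂ) : Prop :=
  ∃ (S : Finset (HeightOneSpectrum (𝓞 F))) (B : HeightOneSpectrum (𝓞 F) → ℂ[X]), S₀ ⊆ S ∧
    (∀ v ∈ S, (B v).eval (((Ideal.absNorm v.asIdeal : ℕ) : ℂ) ^ (-(1 + 2 * w : ℂ))) ≠ 0) ∧
    L = LSquare r c S B

/-- `log |L(s_τ + ε)| / log (1/ε)` at the edge point `s_τ`. -/
noncomputable def size (L : ℂ → ℂ) (w τ ε : ℝ) : ℝ :=
  Real.log ‖L (edgePoint w τ + ε)‖ / Real.log (1 / ε)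

/-- `L` has order `m` at the edge point `s_τ` (order `-m` of a pole), measured from the right:
`log |L(s_τ + ε)| / log (1/ε)` tends to `-m`.  By part 0 of the theorem this is so whenever `L` has a
meromorphic continuation to a neighbourhood of `s_τ`, of order `m` at `s_τ`. -/
def HasOrder (L : ℂ → ℂ) (w τ : ℝ) (m : ℤ) : Prop :=
  Tendsto (size L w τ) (𝓝[>] 0) (𝓝 (-(m : ℝ)))

/-- `κ` is a bound for the order of the pole of `L₂ = L(s, π, r ⊗ r̄)` at `1 + 2w`, measured from the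
right. -/
def PoleBound (L₂ : ℂ → ℂ) (w κ : ℝ) : Prop :=
  ∀ η : ℝ, 0 < η → ∀ᶠ ε : ℝ in 𝓝[>] 0,
    Real.log ‖L₂ (1 + 2 * w + ε)‖ / Real.log (1 / ε) ≤ κ + η

/-- `A₀` is the part of `A` that is fixed by `Gal(F̄/M)`. -/
def IsFixedPart {F : Type} [Field F] (M : IntermediateField F (AlgebraicClosure F))
    (A₀ A : ArtinRep F) : Prop :=
  ∃ f : A₀.ρ.IntertwiningMap A.ρ, Function.Injective f ∧
    ∀ x, (∃ y, f y = x) ↔ ∀ g ∈ M.fixingSubgroup, A.ρ g x = x

/-! ### The parts of the theorem -/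

/-- Part 0: `L(A)` has no zeros to the right of the edge point `s_τ`, near it, and the order of a
meromorphic continuation of `L(A)` to a neighbourhood of `s_τ` is finite and is the order in the sense
of `HasOrder`. -/
def OrdersAreLimits {F Γ V : Type} [Field F] [NumberField F] [Group Γ] [AddCommGroup V]
    [Module ℂ V] (r : Representation ℂ Γ V) (c : HeightOneSpectrum (𝓞 F) → Γ)
    (frob : HeightOneSpectrum (𝓞 F) → Gal(AlgebraicClosure F/F))
    (S₀ : Finset (HeightOneSpectrum (𝓞 F))) (w : ℝ) : Prop :=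
  ∀ (A : ArtinRep F) (L : ℂ → ℂ), IsLFunction r c frob S₀ w A L → ∀ τ : ℝ,
    (∀ᶠ ε : ℝ in 𝓝[>] 0, L (edgePoint w τ + ε) ≠ 0) ∧
    ∀ Λ : ℂ → ℂ, MeromorphicAt Λ (edgePoint w τ) →
      (∀ᶠ s in 𝓝 (edgePoint w τ), w + 1 < s.re → Λ s = L s) →
      ∃ m : ℤ, meromorphicOrderAt Λ (edgePoint w τ) = m ∧ HasOrder L w τ m

/-- Part 0 for `L₂ = L(s, π, r ⊗ r̄)`: the number `(dim V)²` is a bound `κ` in the sense of
`PoleBound`, and a meromorphic continuation of `L₂` to a neighbourhood of `1 + 2w` has a pole of some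
order `k ≥ 0` there, and `k` is such a bound. -/
def PoleBounds {F Γ V : Type} [Field F] [NumberField F] [Group Γ] [AddCommGroup V]
    [Module ℂ V] [FiniteDimensional ℂ V] (r : Representation ℂ Γ V)
    (c : HeightOneSpectrum (𝓞 F) → Γ) (S₀ : Finset (HeightOneSpectrum (𝓞 F))) (w : ℝ) : Prop :=
  ∀ L₂ : ℂ → ℂ, IsLSquare r c S₀ w L₂ →
    PoleBound L₂ w ((Module.finrank ℂ V : ℝ) ^ 2) ∧
    ∀ Λ : ℂ → ℂ, MeromorphicAt Λ (1 + 2 * w : ℂ) →
      (∀ᶠ s in 𝓝 (1 + 2 * w : ℂ), 1 + 2 * w < s.re → Λ s = L₂ s) →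
      ∃ k : ℕ, meromorphicOrderAt Λ (1 + 2 * w : ℂ) = ((-k : ℤ) : WithTop ℤ) ∧ PoleBound L₂ w k

/-- Part I: there are a finite Galois extension `M` of `F` and a set `Θ` of at most `ν κ k²` heights
such that for all `A` with `dim End(A) ≤ ν`: (a) if `τ ∉ Θ` or `A` has no nonzero vector fixed by
`Gal(F̄/M)`, then `|size| < 1/k` at `s_τ` for arbitrarily small `ε`, and the order is `0` if it exists;
(b) the same for the difference between `A` and the part `A₀` of `A` fixed by `Gal(F̄/M)`. -/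
def GoverningField {F Γ V : Type} [Field F] [NumberField F] [Group Γ] [AddCommGroup V]
    [Module ℂ V] (r : Representation ℂ Γ V) (c : HeightOneSpectrum (𝓞 F) → Γ)
    (frob : HeightOneSpectrum (𝓞 F) → Gal(AlgebraicClosure F/F))
    (S₀ : Finset (HeightOneSpectrum (𝓞 F))) (w κ : ℝ) (ν k : ℕ) : Prop :=
  ∃ (M : IntermediateField F (AlgebraicClosure F)) (Θ : Finset ℝ),
    FiniteDimensional F M ∧ IsGalois F M ∧ (Θ.card : ℝ) ≤ ν * κ * k ^ 2 ∧
    ∀ A : ArtinRep F, homDim A A ≤ ν → ∀ L, IsLFunction r c frob S₀ w A L → ∀ τ : ℝ,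
      ((τ ∉ Θ ∨ ∀ x, (∀ g ∈ M.fixingSubgroup, A.ρ g x = x) → x = 0) →
        (∃ᶠ ε : ℝ in 𝓝[>] 0, |size L w τ ε| < 1 / k) ∧ ∀ m, HasOrder L w τ m → m = 0) ∧
      ∀ (A₀ : ArtinRep F) (L₀ : ℂ → ℂ), IsFixedPart M A₀ A → IsLFunction r c frob S₀ w A₀ L₀ →
        (∃ᶠ ε : ℝ in 𝓝[>] 0, |size L w τ ε - size L₀ w τ ε| < 1 / k) ∧
        ∀ m m₀, HasOrder L w τ m → HasOrder L₀ w τ m₀ → m = m₀

open Classical in
/-- For a finite set `T` of triples `(A_j, τ_j, m_j)`: the traces of `r (c_v)` are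
`-∑_j m_j q_v^{w + iτ_j} Tr A_j(frob_v)` in mean square, that is, the sum over `v` of the squares of
the absolute values of the differences times `q_v^{-(1 + 2w + ε)}` is `o(log (1/ε))`. -/
def IsVirtualArtin {F Γ V : Type} [Field F] [NumberField F] [Group Γ] [AddCommGroup V]
    [Module ℂ V] (r : Representation ℂ Γ V) (c : HeightOneSpectrum (𝓞 F) → Γ)
    (frob : HeightOneSpectrum (𝓞 F) → Gal(AlgebraicClosure F/F))
    (S₀ : Finset (HeightOneSpectrum (𝓞 F))) (w : ℝ) (T : Finset (ArtinRep F × ℝ × ℤ)) : Prop :=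
  ∀ η : ℝ, 0 < η → ∀ᶠ ε : ℝ in 𝓝[>] 0,
    ∑' v : HeightOneSpectrum (𝓞 F), (if v ∈ S₀ then 0 else
      ‖LinearMap.trace ℂ V (r (c v)) + ∑ y ∈ T, (y.2.2 : ℂ) *
        ((Ideal.absNorm v.asIdeal : ℕ) : ℂ) ^ ((w : ℂ) + y.2.1 * Complex.I) *
          y.1.ρ.character (frob v)‖ ^ 2 *
        (Ideal.absNorm v.asIdeal : ℝ) ^ (-(1 + 2 * w + ε))) ≤ η * Real.log (1 / ε)

/-- Part II: there is a finite set `T` of triples `(A_j, τ_j, m_j)`, `A_j` an irreducible
representation of the group `Gal(M/F)` of one finite Galois extension `M` of `F`, `m_j ≠ 0`, the `A_j`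
with equal `τ_j` inequivalent, with `∑ m_j² ≤ κ`, such that for every real `τ` and every `A` for whose
irreducible constituents `B` the orders of `L(B)` at `s_τ` exist, the order of `L(A)` at `s_τ` is
`∑_{τ_j = τ} m_j dim Hom(A_j, A)`; and if `∑ m_j² = κ`, then the traces of `r (c_v)` are, in mean
square, those of the virtual representation `-∑_j m_j A_j`, shifted by `w + iτ_j`. -/
def OrderRepresentation {F Γ V : Type} [Field F] [NumberField F] [Group Γ] [AddCommGroup V]
    [Module ℂ V] (r : Representation ℂ Γ V) (c : HeightOneSpectrum (𝓞 F) → Γ)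
    (frob : HeightOneSpectrum (𝓞 F) → Gal(AlgebraicClosure F/F))
    (S₀ : Finset (HeightOneSpectrum (𝓞 F))) (w κ : ℝ) : Prop :=
  ∃ (T : Finset (ArtinRep F × ℝ × ℤ)) (M : IntermediateField F (AlgebraicClosure F)),
    FiniteDimensional F M ∧ IsGalois F M ∧
    (∀ y ∈ T, y.1.ρ.IsIrreducible ∧ (∀ g ∈ M.fixingSubgroup, y.1.ρ g = 1) ∧ y.2.2 ≠ 0) ∧
    (∀ y ∈ T, ∀ z ∈ T, y ≠ z → y.2.1 = z.2.1 → IsEmpty (y.1.ρ.Equiv z.1.ρ)) ∧
    (∑ y ∈ T, (y.2.2 : ℝ) ^ 2 ≤ κ) ∧
    (∀ (τ : ℝ) (A : ArtinRep F),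
      (∀ B : ArtinRep F, B.ρ.IsIrreducible → homDim B A ≠ 0 →
        ∃ L m, IsLFunction r c frob S₀ w B L ∧ HasOrder L w τ m) →
      ∀ L, IsLFunction r c frob S₀ w A L →
        HasOrder L w τ (∑ y ∈ T with y.2.1 = τ, y.2.2 * (homDim y.1 A : ℤ))) ∧
    (∑ y ∈ T, (y.2.2 : ℝ) ^ 2 = κ → IsVirtualArtin r c frob S₀ w T)

/-- **The Artin twists of an automorphic Euler product at the edge.**

Let `F` be a number field, `Γ` a group, `r` a finite-dimensional complex representation of `Γ` on `V`,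
`c_v ∈ Γ` for the finite places `v` of `F`, and let the eigenvalues of `r(c_v)` have absolute value
`≤ q_v^w` for `v ∉ S₀`.  For an Artin representation `A` of `F` let `L(A) = L(s, π, r ⊗ A)`, let
`L₂ = L(s, π, r ⊗ r̄)`, and put `s_τ = 1 + w + iτ`, `x(A, τ, ε) = log |L(A)(s_τ + ε)| / log (1/ε)`.

Part 0.  `L(A)(s_τ + ε) ≠ 0` for small `ε > 0`, and if `L(A)` has a meromorphic continuation to a
neighbourhood of `s_τ`, then this has a finite order `m` at `s_τ` and `x(A, τ, ε)` tends to `-m`.  The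
number `κ = (dim V)²`, and the order `κ = k` of the pole of `L₂` at `1 + 2w` if `L₂` has a meromorphic
continuation to a neighbourhood of this point, satisfy
`limsup log |L₂(1 + 2w + ε)| / log (1/ε) ≤ κ`.  Let `κ` be any number with this property.

Part I (nothing is assumed about continuation).  For all `ν, k ≥ 1` there are a finite Galois extension
`M` of `F` and a set `Θ` of at most `ν κ k²` real numbers such that for all Artin representations `A`
of `F` with `dim End(A) ≤ ν` (and of any dimension) and all real `τ`: if `τ ∉ Θ`, or if `A` has no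
nonzero vector fixed by `Gal(F̄/M)`, then `|x(A, τ, ε)| < 1/k` for arbitrarily small `ε > 0` and the
order of `L(A)` at `s_τ` is `0` if it exists; and if `A₀` is the part of `A` fixed by `Gal(F̄/M)`, then
`|x(A, τ, ε) - x(A₀, τ, ε)| < 1/k` for arbitrarily small `ε > 0`, and the orders of `L(A)` and `L(A₀)`
at `s_τ` are equal if both exist.

Part II.  There are irreducible representations `A_j` of the group `Gal(M/F)` of one finite Galois
extension `M` of `F`, real numbers `τ_j` and integers `m_j ≠ 0` (finitely many, the `A_j` with equal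
`τ_j` inequivalent), such that `∑_j m_j² ≤ κ` and for every real `τ` and every Artin representation
`A` of `F`, of any dimension, for whose irreducible constituents `B` the orders of `L(B)` at `s_τ`
exist, the order of `L(A)` at `s_τ` exists and is `∑_{τ_j = τ} m_j dim Hom(A_j, A)`.  If
`∑_j m_j² = κ`, then the traces of `r(c_v)` are `-∑_j m_j q_v^{w + iτ_j} Tr A_j(frob_v)` in mean
square. -/
theorem result (F Γ V : Type) [Field F] [NumberField F] [Group Γ] [AddCommGroup V] [Module ℂ V]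
    [FiniteDimensional ℂ V] (r : Representation ℂ Γ V) (c : HeightOneSpectrum (𝓞 F) → Γ)
    (S₀ : Finset (HeightOneSpectrum (𝓞 F))) (w : ℝ) (hw : EigenBound r c S₀ w)
    (frob : HeightOneSpectrum (𝓞 F) → Gal(AlgebraicClosure F/F))
    (hfrob : ∀ v, IsFrobenius v (frob v)) :
    OrdersAreLimits r c frob S₀ w ∧ PoleBounds r c S₀ w ∧
    ∀ (L₂ : ℂ → ℂ) (κ : ℝ), IsLSquare r c S₀ w L₂ → PoleBound L₂ w κ →
      (∀ ν k : ℕ, 0 < k → GoverningField r c frob S₀ w κ ν k) ∧
      OrderRepresentation r c frob S₀ w κ := by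
  classical
  set s := Pool.Agent.W385.GA.detSy V (fun v => r (c v)) w S₀ frob hw hfrob with hs
  have hb : Pool.Agent.W385.GA.Bridge s (IsLFunction r c frob S₀ w) (edgePoint w) := by
    intro A L hL τ
    obtain ⟨S, B, h1, _, h3, rfl⟩ := hL
    have h4 := Pool.Agent.W385.GA.size_det V (fun v => r (c v)) w S₀ frob hw hfrob A S h1 B τ
      (fun v hv => h3 v hv τ)
    exact h4
  have hre : ∀ τ : ℝ, (edgePoint w τ).re = w + 1 := by
    intro τ
    simp [edgePoint]
  have hsq : ∀ L₂, IsLSquare r c S₀ w L₂ →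
      (∀ᶠ ε : ℝ in 𝓝[>] 0, L₂ (1 + 2 * w + ε) ≠ 0) ∧
      Tendsto (fun ε : ℝ => s.u ε - Real.log ‖L₂ (1 + 2 * w + ε)‖ / Real.log (1 / ε))
        (𝓝[>] 0) (𝓝 0) := by
    intro L₂ hL₂
    obtain ⟨S, B, h1, h3, rfl⟩ := hL₂
    exact Pool.Agent.W385.GA.size_sq V (fun v => r (c v)) w S₀ frob hw hfrob S h1 B h3
  have hbd : ∀ L₂, IsLSquare r c S₀ w L₂ → ∀ κ : ℝ, PoleBound L₂ w κ ↔ s.Bd κ := by
    intro L₂ hL₂ κ
    have h1 := (hsq L₂ hL₂).2
    constructor
    · intro h η hη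
      filter_upwards [h (η / 2) (half_pos hη),
        h1.eventually_lt_const (half_pos hη)] with ε h2 h3
      linarith
    · intro h η hη
      filter_upwards [h (η / 2) (half_pos hη),
        h1.eventually_const_lt (neg_lt_zero.2 (half_pos hη))] with ε h2 h3
      linarith
  refine ⟨fun A L hL τ => Pool.Agent.W385.GA.abs_part0 hb hre A L hL τ, fun L₂ hL₂ => ?_,
    fun L₂ κ hL₂ hκ => ?_⟩
  · refine ⟨(hbd L₂ hL₂ _).2 s.bd_D, fun Λ h1 h2 => ?_⟩
    have hpath : Tendsto (fun ε : ℝ => (1 + 2 * w : ℂ) + ε) (𝓝[>] 0) (𝓝 (1 + 2 * w : ℂ)) := by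
      have h3 : Tendsto (fun ε : ℝ => (1 + 2 * w : ℂ) + ε) (𝓝 0)
          (𝓝 ((1 + 2 * w : ℂ) + ((0 : ℝ) : ℂ))) := by
        have : Continuous fun ε : ℝ => (1 + 2 * w : ℂ) + (ε : ℂ) := by fun_prop
        exact this.tendsto 0
      rw [Complex.ofReal_zero, add_zero] at h3
      exact h3.mono_left nhdsWithin_le_nhds
    have h3 : ∀ᶠ ε : ℝ in 𝓝[>] 0, Λ (1 + 2 * w + ε) = L₂ (1 + 2 * w + ε) := by
      filter_upwards [hpath.eventually h2, self_mem_nhdsWithin] with ε h4 h5
      have hε : (0 : ℝ) < ε := h5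
      refine h4 ?_
      simp only [Complex.add_re, Complex.one_re, Complex.mul_re, Complex.re_ofNat,
        Complex.ofReal_re, Complex.im_ofNat, Complex.ofReal_im, mul_zero, sub_zero]
      linarith
    obtain ⟨m, hm1, hm2⟩ := Pool.Agent.W540.BE.order_of_size h1 (by
      filter_upwards [h3, (hsq L₂ hL₂).1] with ε h4 h5
      rw [h4]
      exact h5)
    have hm3 : Tendsto (fun ε : ℝ => Real.log ‖L₂ (1 + 2 * w + ε)‖ / Real.log (1 / ε)) (𝓝[>] 0)
        (𝓝 (-(m : ℝ))) := by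
      refine hm2.congr' ?_
      filter_upwards [h3] with ε h4
      rw [h4]
    have hm4 : Tendsto s.u (𝓝[>] 0) (𝓝 (-(m : ℝ))) := by
      have h5 := (hsq L₂ hL₂).2.add hm3
      rw [zero_add] at h5
      refine h5.congr fun ε => ?_
      ring
    have hm5 : 0 ≤ -(m : ℝ) := by
      refine ge_of_tendsto hm4 ?_
      filter_upwards [Pool.Agent.H341R2.lam_tendsto.eventually_gt_atTop 0] with ε h5
      exact div_nonneg (Pool.Agent.W540.BE.EP_nonneg fun v => sq_nonneg _) h5.le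
    have hm6 : 0 ≤ -m := by exact_mod_cast hm5
    refine ⟨(-m).toNat, ?_, ?_⟩
    · rw [hm1]
      congr 1
      rw [Int.toNat_of_nonneg hm6, neg_neg]
    · intro η hη
      have h6 : (((-m).toNat : ℕ) : ℝ) = -(m : ℝ) := by
        have h7 := Int.toNat_of_nonneg hm6
        have h8 : (((-m).toNat : ℤ) : ℝ) = ((-m : ℤ) : ℝ) := by rw [h7]
        push_cast at h8
        exact h8
      rw [h6]
      exact (hm3.eventually_lt_const (by linarith : -(m : ℝ) < -(m : ℝ) + η)).mono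
        fun ε h => h.le
  · have hκ' := (hbd L₂ hL₂ κ).1 hκ
    refine ⟨fun ν k hk => Pool.Agent.W385.GA.abs_part1' hb hκ' ν k hk, ?_⟩
    obtain ⟨T, M, h1, h2, h3, h4, h5, h6, h7⟩ := Pool.Agent.W385.GA.abs_part2' hb hκ'
    refine ⟨T, M, h1, h2, h3, h4, h5, h6, fun h8 => ?_⟩
    exact Pool.Agent.W385.GA.mean_conv V (fun v => r (c v)) w S₀ frob hw hfrob T (h7 h8.ge)

end Pool.Agent.Results.MP_eea520_nt.EdgeAllTwists
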