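import Pool.Agent.W353.SE.Match
import Pool.Agent.W353.ST.Bridge
import Pool.Agent.W385.GA.Det

/-!
# Families of automorphic Euler products and Artin representations at the edge

`F` is a number field (the problem is the case `F = ℚ`); `π_i` (`i` in a finite set) are given by their
Satake classes `c_i(v)` in groups `Γ_i` (complex `L`-groups, for instance `GSpin_{2n+1}(ℂ)`) and `r_i` is a
finite-dimensional complex representation of `Γ_i`, such that the eigenvalues of `r_i(c_i(v))` have absolute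
value `≤ q_v^{w_i}`.  If the normalised traces of different `i` are uncorrelated, the orders at the edge of
the half-plane of convergence of the `L`-functions `L(s, π_i, r_i ⊗ A_j)` for pairwise different irreducible
Artin representations `A_j` define a partial matching between the `π_i` and the `A_j`.
-/

set_option autoImplicit false

namespace Pool.Agent.Results.MP_eea520_nt.FamilyMatching

open NumberField IsDedekindDomain Filter Topology Polynomial
open Pool.Agent.W385.GA (ArtinRep homDim)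
open Pool.Agent.W353.ST (HasMean)

/-- `σ` is a Frobenius element at the prime `v` of `F`: there is a maximal ideal `Q` above `v` of the
ring of all algebraic integers with `σ x ≡ x ^ q_v` modulo `Q` for all `x`. -/
def IsFrobenius {F : Type} [Field F] [NumberField F] (v : HeightOneSpectrum (𝓞 F))
    (σ : Gal(AlgebraicClosure F/F)) : Prop :=
  ∃ Q : Ideal (𝓞 (AlgebraicClosure F)), Q.IsMaximal ∧
    Q.comap (algebraMap (𝓞 F) (𝓞 (AlgebraicClosure F))) = v.asIdeal ∧
    ∀ x : 𝓞 (AlgebraicClosure F), σ • x - x ^ Ideal.absNorm v.asIdeal ∈ Q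

/-- The representation `A` is unramified at `v`: the inertia groups of the maximal ideals above `v`
act trivially. -/
def Unramified {F : Type} [Field F] [NumberField F] (A : ArtinRep F)
    (v : HeightOneSpectrum (𝓞 F)) : Prop :=
  ∀ Q : Ideal (𝓞 (AlgebraicClosure F)), Q.IsMaximal →
    Q.comap (algebraMap (𝓞 F) (𝓞 (AlgebraicClosure F))) = v.asIdeal →
    ∀ g : Gal(AlgebraicClosure F/F), (∀ x : 𝓞 (AlgebraicClosure F), g • x - x ∈ Q) → A.ρ g = 1

/-- The eigenvalues of `r (c v)` have absolute value `≤ q_v ^ w` for `v ∉ S₀`. -/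
def EigenBound {F Γ V : Type} [Field F] [NumberField F] [Group Γ] [AddCommGroup V] [Module ℂ V]
    (r : Representation ℂ Γ V) (c : HeightOneSpectrum (𝓞 F) → Γ)
    (S₀ : Finset (HeightOneSpectrum (𝓞 F))) (w : ℝ) : Prop :=
  ∀ v, v ∉ S₀ → ∀ l : ℂ, Module.End.HasEigenvalue (r (c v)) l →
    ‖l‖ ≤ (Ideal.absNorm v.asIdeal : ℝ) ^ w

/-- The local factor `det(1 - (C ⊗ E) z)⁻¹`. -/
noncomputable def localFactor {V W : Type} [AddCommGroup V] [Module ℂ V] [AddCommGroup W]
    [Module ℂ W] (C : Module.End ℂ V) (E : Module.End ℂ W) (z : ℂ) : ℂ :=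
  (LinearMap.det (1 - z • (TensorProduct.map C E : Module.End ℂ (TensorProduct ℂ V W))))⁻¹

open Classical in
/-- The Euler product `L(s, π, r ⊗ A)`, with the factor `det(1 - r(c_v) ⊗ A(Frob_v) q_v^{-s})⁻¹` at
`v ∉ S`, where `Frob_v` is the geometric Frobenius, the inverse of `frob v`; at the places of the
finite set `S` the factor is `B_v(q_v^{-s})⁻¹` for some polynomial `B_v`. -/
noncomputable def LFun {F Γ V : Type} [Field F] [NumberField F] [Group Γ] [AddCommGroup V]
    [Module ℂ V] (r : Representation ℂ Γ V) (c : HeightOneSpectrum (𝓞 F) → Γ)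
    (frob : HeightOneSpectrum (𝓞 F) → Gal(AlgebraicClosure F/F)) (A : ArtinRep F)
    (S : Finset (HeightOneSpectrum (𝓞 F))) (B : HeightOneSpectrum (𝓞 F) → ℂ[X]) (s : ℂ) : ℂ :=
  ∏' v : HeightOneSpectrum (𝓞 F),
    if v ∈ S then ((B v).eval (((Ideal.absNorm v.asIdeal : ℕ) : ℂ) ^ (-s)))⁻¹
    else localFactor (r (c v)) (A.ρ (frob v)⁻¹) (((Ideal.absNorm v.asIdeal : ℕ) : ℂ) ^ (-s))

/-- The point `1 + w + iτ` of the edge. -/
noncomputable def edgePoint (w τ : ℝ) : ℂ := w + 1 + τ * Complex.I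

/-- `L` is the `L`-function of `r ⊗ A`: its Euler product, with polynomials that do not vanish at the
points of the edge as factors at a finite set of places, which contains `S₀` and the places where `A`
is ramified. -/
def IsLFunction {F Γ V : Type} [Field F] [NumberField F] [Group Γ] [AddCommGroup V]
    [Module ℂ V] (r : Representation ℂ Γ V) (c : HeightOneSpectrum (𝓞 F) → Γ)
    (frob : HeightOneSpectrum (𝓞 F) → Gal(AlgebraicClosure F/F))
    (S₀ : Finset (HeightOneSpectrum (𝓞 F))) (w : ℝ) (A : ArtinRep F) (L : ℂ → ℂ) : Prop :=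
  ∃ (S : Finset (HeightOneSpectrum (𝓞 F))) (B : HeightOneSpectrum (𝓞 F) → ℂ[X]), S₀ ⊆ S ∧
    (∀ v, v ∉ S → Unramified A v) ∧
    (∀ v ∈ S, ∀ τ : ℝ, (B v).eval (((Ideal.absNorm v.asIdeal : ℕ) : ℂ) ^ (-edgePoint w τ)) ≠ 0) ∧
    L = LFun r c frob A S B

/-- `log |L(s_τ + ε)| / log (1/ε)` at the edge point `s_τ`. -/
noncomputable def size (L : ℂ → ℂ) (w τ ε : ℝ) : ℝ :=
  Real.log ‖L (edgePoint w τ + ε)‖ / Real.log (1 / ε)

/-- `L` has a meromorphic continuation to a neighbourhood of the edge point `s_τ`, of order `m` at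
`s_τ`. -/
def HasOrder (L : ℂ → ℂ) (w τ : ℝ) (m : ℤ) : Prop :=
  ∃ Λ : ℂ → ℂ, MeromorphicAt Λ (edgePoint w τ) ∧
    (∀ᶠ s in 𝓝 (edgePoint w τ), w + 1 < s.re → Λ s = L s) ∧
    meromorphicOrderAt Λ (edgePoint w τ) = m

open Classical in
/-- The normalised trace `q_v^{-w} Tr r(c_v)`, and `0` for `v ∈ S₀`. -/
noncomputable def normTrace {F Γ V : Type} [Field F] [NumberField F] [Group Γ] [AddCommGroup V]
    [Module ℂ V] (r : Representation ℂ Γ V) (c : HeightOneSpectrum (𝓞 F) → Γ)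
    (S₀ : Finset (HeightOneSpectrum (𝓞 F))) (w : ℝ) (v : HeightOneSpectrum (𝓞 F)) : ℂ :=
  if v ∈ S₀ then 0 else
    LinearMap.trace ℂ V (r (c v)) * ((Ideal.absNorm v.asIdeal : ℕ) : ℂ) ^ (-(w : ℂ))

open Classical in
/-- The quadratic form `∑ b_j b_k dim Hom(A_j, A_k)`, the sum over the pairs with `τ_j = τ_k`. -/
noncomputable def gram {F : Type} [Field F] {J : Type} [Fintype J] (A : J → ArtinRep F)
    (τ b : J → ℝ) : ℝ :=
  ∑ j, ∑ k, b j * b k * (if τ j = τ k then (homDim (A j) (A k) : ℝ) else 0)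

/-- **Families of automorphic Euler products and Artin representations.**

Let `F` be a number field and for `i` in a finite set let `r_i` be a finite-dimensional complex
representation of a group `Γ_i` and `c_i(v) ∈ Γ_i` for the finite places `v` of `F`; let the eigenvalues of
`r_i(c_i(v))` have absolute value `≤ q_v^{w_i}` for almost all `v`, let `t_i(v)` be the normalised trace and
suppose that the mean value of the real part of `t_i \bar t_k` (analytic density) is `0` for `i ≠ k` and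
`κ_i > 0` for `i = k`.  Let `A_j` (`j` in a finite set) be Artin representations of `F` and `τ_j` real
numbers, `L_{ij} = L(s, π_i, r_i ⊗ A_j)` and
`x_{ij}(ε) = log |L_{ij}(1 + w_i + iτ_j + ε)| / log (1/ε)`.

1. `L_{ij}(1 + w_i + iτ_j + ε) ≠ 0` for small `ε > 0`, and for real `b_j`, every `η > 0` and small `ε > 0`
`∑_i (∑_j b_j x_{ij}(ε))² / κ_i ≤ G(b) + η`, with `G(b) = ∑_{τ_j = τ_k} b_j b_k dim Hom(A_j, A_k)`.

2. If the `L_{ij}` have meromorphic continuations to neighbourhoods of `1 + w_i + iτ_j`, of orders `m_{ij}`,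
then `∑_i (∑_j b_j m_{ij})² / κ_i ≤ G(b)` for all real `b_j`.

3. If moreover the `A_j` are irreducible and those with equal `τ_j` are not equivalent, then
`∑_i m_{ij}² / κ_i ≤ 1` for all `j` and `∑_j m_{ij}² ≤ κ_i` for all `i`.  If all `κ_i = 1`, then the `m_{ij}`
define a partial matching: `m_{ij} ∈ {0, 1, -1}`, and for every `i` there is at most one `j`, for every `j`
at most one `i` with `m_{ij} ≠ 0`. -/
theorem result (F : Type) [Field F] [NumberField F]
    (frob : HeightOneSpectrum (𝓞 F) → Gal(AlgebraicClosure F/F))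
    (hfrob : ∀ v, IsFrobenius v (frob v)) (I : Type) [Fintype I] (Γ V : I → Type)
    [∀ i, Group (Γ i)] [∀ i, AddCommGroup (V i)] [∀ i, Module ℂ (V i)]
    [∀ i, FiniteDimensional ℂ (V i)] (r : ∀ i, Representation ℂ (Γ i) (V i))
    (c : ∀ i, HeightOneSpectrum (𝓞 F) → Γ i) (S₀ : I → Finset (HeightOneSpectrum (𝓞 F)))
    (w : I → ℝ) (hw : ∀ i, EigenBound (r i) (c i) (S₀ i) (w i)) (κ : I → ℝ) (hκ : ∀ i, 0 < κ i)
    (hdiag : ∀ i, HasMean (fun v => (((normTrace (r i) (c i) (S₀ i) (w i) v *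
      (starRingEnd ℂ) (normTrace (r i) (c i) (S₀ i) (w i) v)).re : ℝ) : ℂ)) (κ i : ℂ))
    (hoff : ∀ i k, i ≠ k → HasMean (fun v => (((normTrace (r i) (c i) (S₀ i) (w i) v *
      (starRingEnd ℂ) (normTrace (r k) (c k) (S₀ k) (w k) v)).re : ℝ) : ℂ)) 0)
    (J : Type) [Fintype J] (A : J → ArtinRep F) (τ : J → ℝ) (L : I → J → ℂ → ℂ)
    (hL : ∀ i j, IsLFunction (r i) (c i) frob (S₀ i) (w i) (A j) (L i j)) :
    (∀ i j, ∀ᶠ ε : ℝ in 𝓝[>] 0, L i j (edgePoint (w i) (τ j) + ε) ≠ 0) ∧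
    (∀ (b : J → ℝ) (η : ℝ), 0 < η → ∀ᶠ ε : ℝ in 𝓝[>] 0,
      ∑ i, (∑ j, b j * size (L i j) (w i) (τ j) ε) ^ 2 / κ i ≤ gram A τ b + η) ∧
    ∀ m : I → J → ℤ, (∀ i j, HasOrder (L i j) (w i) (τ j) (m i j)) →
      (∀ b : J → ℝ, ∑ i, (∑ j, b j * m i j) ^ 2 / κ i ≤ gram A τ b) ∧
      ((∀ j, (A j).ρ.IsIrreducible) →
        (∀ j k, j ≠ k → τ j = τ k → IsEmpty ((A j).ρ.Equiv (A k).ρ)) →
        (∀ j, ∑ i, (m i j : ℝ) ^ 2 / κ i ≤ 1) ∧ (∀ i, ∑ j, (m i j : ℝ) ^ 2 ≤ κ i) ∧
        ((∀ i, κ i = 1) → (∀ i j, m i j = 0 ∨ m i j = 1 ∨ m i j = -1) ∧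
          (∀ i j k, m i j ≠ 0 → m i k ≠ 0 → j = k) ∧
          ∀ i k j, m i j ≠ 0 → m k j ≠ 0 → i = k)) := by
  classical
  have hsz : ∀ i j, (∀ᶠ ε : ℝ in 𝓝[>] 0, L i j (edgePoint (w i) (τ j) + ε) ≠ 0) ∧
      Tendsto (fun ε : ℝ => (Pool.Agent.W385.GA.detSy (V i) (fun v => r i (c i v)) (w i) (S₀ i)
        frob (hw i) hfrob).x (A j) (τ j) ε - size (L i j) (w i) (τ j) ε) (𝓝[>] 0) (𝓝 0) := by
    intro i j
    obtain ⟨S, B, h1, _, h3, h4⟩ := hL i j
    rw [h4]
    exact Pool.Agent.W385.GA.size_det (V i) (fun v => r i (c i v)) (w i) (S₀ i) frob (hw i) hfrob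
      (A j) S h1 B (τ j) (fun v hv => h3 v hv (τ j))
  set s : I → ℝ := fun i => Real.sqrt (κ i) with hs
  have hs0 : ∀ i, 0 < s i := fun i => Real.sqrt_pos.2 (hκ i)
  have hssq : ∀ i, s i * s i = κ i := fun i => Real.mul_self_sqrt (hκ i).le
  set N : I → HeightOneSpectrum (𝓞 F) → ℂ := fun i v => normTrace (r i) (c i) (S₀ i) (w i) v with hN
  have hNt : ∀ i v, N i v = Pool.Agent.W385.GA.tn (Pool.Agent.W385.GA.detSy (V i)
      (fun v => r i (c i v)) (w i) (S₀ i) frob (hw i) hfrob).t (w i) (S₀ i) v := by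
    intro i v
    change _ = @ite ℂ (v ∈ S₀ i) _ 0 ((if 1 = 1 then LinearMap.trace ℂ (V i) (r i (c i v)) else 0) *
      ((Pool.Agent.W540.BE.nm F v : ℕ) : ℂ) ^ (-(w i : ℂ)))
    rw [if_pos rfl]
    rfl
  have hNb : ∀ i v, ‖N i v‖ ≤ Module.finrank ℂ (V i) := by
    intro i v
    rw [hNt]
    exact Pool.Agent.W385.GA.norm_tn_le (Pool.Agent.W385.GA.detSy (V i)
      (fun v => r i (c i v)) (w i) (S₀ i) frob (hw i) hfrob).hD (Pool.Agent.W385.GA.detSy (V i)
      (fun v => r i (c i v)) (w i) (S₀ i) frob (hw i) hfrob).ht v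
  set T : I → HeightOneSpectrum (𝓞 F) → ℂ := fun i v => (((s i)⁻¹ : ℝ) : ℂ) * N i v with hTd
  set D : ℝ := ∑ i, (Module.finrank ℂ (V i) : ℝ) / s i with hD
  have hT : ∀ i v, ‖T i v‖ ≤ D := by
    intro i v
    have h1 : ‖T i v‖ ≤ (Module.finrank ℂ (V i) : ℝ) / s i := by
      rw [hTd]
      simp only
      rw [norm_mul, Complex.norm_real, Real.norm_eq_abs, abs_of_pos (inv_pos.2 (hs0 i)),
        div_eq_inv_mul]
      exact mul_le_mul_of_nonneg_left (hNb i v) (inv_nonneg.2 (hs0 i).le)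
    refine h1.trans ?_
    rw [hD]
    exact Finset.single_le_sum (f := fun i => (Module.finrank ℂ (V i) : ℝ) / s i)
      (fun i _ => div_nonneg (Nat.cast_nonneg _) (hs0 i).le) (Finset.mem_univ i)
  have horth : ∀ i k, Tendsto (fun ε : ℝ => (Pool.Agent.W540.BE.EP (Pool.Agent.W540.BE.nm F) ε
      fun v => (T i v * (starRingEnd ℂ) (T k v)).re) /
        Pool.Agent.H341R2.lam ε) (𝓝[>] 0) (𝓝 (if i = k then 1 else 0)) := by
    intro i k
    have hb : ∀ v, |(N i v * (starRingEnd ℂ) (N k v)).re| ≤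
        (Module.finrank ℂ (V i) : ℝ) * Module.finrank ℂ (V k) := by
      intro v
      refine (Complex.abs_re_le_norm _).trans ?_
      rw [norm_mul, Complex.norm_conj]
      exact mul_le_mul (hNb i v) (hNb k v) (norm_nonneg _) (Nat.cast_nonneg _)
    have h1 : Tendsto (fun ε : ℝ => Pool.Agent.W540.BE.EP (Pool.Agent.W540.BE.nm F) ε
        (fun v => (N i v * (starRingEnd ℂ) (N k v)).re) / Pool.Agent.H341R2.lam ε) (𝓝[>] 0)
        (𝓝 (if i = k then κ i else 0)) := by
      refine Pool.Agent.W353.ST.hasMean_real hb ?_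
      by_cases h : i = k
      · subst h
        rw [if_pos rfl]
        exact hdiag i
      · rw [if_neg h, Complex.ofReal_zero]
        exact hoff i k h
    have h2 := h1.const_mul ((s i)⁻¹ * (s k)⁻¹)
    have e1 : (s i)⁻¹ * (s k)⁻¹ * (if i = k then κ i else 0) = if i = k then 1 else 0 := by
      by_cases h : i = k
      · subst h
        rw [if_pos rfl, if_pos rfl, ← hssq i]
        have := (hs0 i).ne'
        field_simp
      · rw [if_neg h, if_neg h, mul_zero]
    rw [e1] at h2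
    refine h2.congr fun ε => ?_
    rw [← mul_div_assoc, ← Pool.Agent.W540.BE.EP_const_mul]
    congr 2
    funext v
    have e3 : T i v * (starRingEnd ℂ) (T k v) =
        (((s i)⁻¹ * (s k)⁻¹ : ℝ) : ℂ) * (N i v * (starRingEnd ℂ) (N k v)) := by
      rw [hTd]
      simp only
      rw [map_mul, Complex.conj_ofReal]
      push_cast
      ring
    rw [e3, Complex.re_ofReal_mul]
  have hX : ∀ i j, Tendsto (fun ε : ℝ => (Pool.Agent.W540.BE.EP (Pool.Agent.W540.BE.nm F) ε
      fun v => (T i v * (starRingEnd ℂ) (Pool.Agent.W385.GA.vv frob (A j) (τ j) v)).re) /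
        Pool.Agent.H341R2.lam ε - (fun i j ε => (s i)⁻¹ * size (L i j) (w i) (τ j) ε) i j ε)
      (𝓝[>] 0) (𝓝 0) := by
    intro i j
    have h1 := (hsz i j).2.const_mul (s i)⁻¹
    rw [mul_zero] at h1
    refine h1.congr fun ε => ?_
    have e1 : (Pool.Agent.W385.GA.detSy (V i) (fun v => r i (c i v)) (w i) (S₀ i)
        frob (hw i) hfrob).x (A j) (τ j) ε = (Pool.Agent.W540.BE.EP (Pool.Agent.W540.BE.nm F) ε
        fun v => (N i v * (starRingEnd ℂ) (Pool.Agent.W385.GA.vv frob (A j) (τ j) v)).re) /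
        Pool.Agent.H341R2.lam ε := by
      simp only [hNt]
      rfl
    have e2 : (fun v => (T i v *
        (starRingEnd ℂ) (Pool.Agent.W385.GA.vv frob (A j) (τ j) v)).re) = fun v =>
        (s i)⁻¹ * (N i v * (starRingEnd ℂ) (Pool.Agent.W385.GA.vv frob (A j) (τ j) v)).re := by
      funext v
      rw [hTd]
      simp only
      rw [mul_assoc, Complex.re_ofReal_mul]
    rw [e2, Pool.Agent.W540.BE.EP_const_mul, e1]
    ring
  have hmain : ∀ (b : J → ℝ) (η : ℝ), 0 < η → ∀ᶠ ε : ℝ in 𝓝[>] 0,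
      ∑ i, (∑ j, b j * size (L i j) (w i) (τ j) ε) ^ 2 / κ i ≤ gram A τ b + η := by
    intro b η hη
    have h1 := Pool.Agent.W353.SE.match_main hT horth hfrob A τ b _ hX hη
    have h2 : Pool.Agent.W353.SE.gq A τ b = gram A τ b := rfl
    rw [h2] at h1
    filter_upwards [h1] with ε hε
    refine le_trans (le_of_eq (Finset.sum_congr rfl fun i _ => ?_)) hε
    have h3 : ∑ j, b j * ((s i)⁻¹ * size (L i j) (w i) (τ j) ε) =
        (s i)⁻¹ * ∑ j, b j * size (L i j) (w i) (τ j) ε := by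
      rw [Finset.mul_sum]
      exact Finset.sum_congr rfl fun j _ => by ring
    rw [h3, mul_pow, inv_pow, sq (s i), hssq, div_eq_inv_mul]
  refine ⟨fun i j => (hsz i j).1, hmain, fun m hm => ?_⟩
  have hlim : ∀ i j, Tendsto (size (L i j) (w i) (τ j)) (𝓝[>] 0) (𝓝 (-(m i j : ℝ))) := by
    intro i j
    obtain ⟨Λ, h1, h2, h3⟩ := hm i j
    have hre : (edgePoint (w i) (τ j)).re = w i + 1 := by simp [edgePoint]
    have h4 : ∀ᶠ ε : ℝ in 𝓝[>] 0, Λ (edgePoint (w i) (τ j) + ε) =
        L i j (edgePoint (w i) (τ j) + ε) := by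
      filter_upwards [(Pool.Agent.H341R2.path_tendsto' (edgePoint (w i) (τ j))).eventually h2,
        self_mem_nhdsWithin] with ε h5 h6
      have hε : (0 : ℝ) < ε := h6
      refine h5 ?_
      rw [Complex.add_re, hre, Complex.ofReal_re]
      linarith
    obtain ⟨m', h5, h6⟩ := Pool.Agent.W540.BE.order_of_size h1 (by
      filter_upwards [h4, (hsz i j).1] with ε h7 h8
      rw [h7]
      exact h8)
    rw [h3] at h5
    have h7 : m i j = m' := by exact_mod_cast h5
    rw [h7]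
    refine h6.congr' ?_
    filter_upwards [h4] with ε h8
    rw [h8]
    rfl
  have hall : ∀ b : J → ℝ, ∑ i, (∑ j, b j * m i j) ^ 2 / κ i ≤ gram A τ b := by
    intro b
    have h1 : ∑ i, (∑ j, b j * (-(m i j : ℝ))) ^ 2 / κ i ≤ gram A τ b := by
      refine le_of_forall_pos_le_add fun η hη => ?_
      exact le_of_tendsto (tendsto_finsetSum _ fun i _ =>
        ((tendsto_finsetSum _ fun j _ => (hlim i j).const_mul (b j)).pow 2).div_const _)
        (hmain b η hη)
    refine le_trans (le_of_eq (Finset.sum_congr rfl fun i _ => ?_)) h1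
    have h6 : ∑ j, b j * (-(m i j : ℝ)) = -∑ j, b j * (m i j : ℝ) := by
      rw [← Finset.sum_neg_distrib]
      exact Finset.sum_congr rfl fun k _ => by ring
    rw [h6, neg_sq]
  refine ⟨hall, fun hirr hne => ?_⟩
  have hgram : ∀ b : J → ℝ, gram A τ b = ∑ j, b j ^ 2 := by
    intro b
    unfold gram
    refine Finset.sum_congr rfl fun j _ => ?_
    rw [Finset.sum_eq_single j]
    · rw [if_pos rfl, Pool.Agent.W385.GA.homDim_irr (hirr j)]
      push_cast
      ring
    · intro k _ hk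
      by_cases h : τ j = τ k
      · have h1 : homDim (A j) (A k) = 0 := by
          by_contra h2
          have h3 := Pool.Agent.W385.GA.equiv_of_homDim (hirr j) (hirr k) h2
          exact (hne j k (Ne.symm hk) h).false h3.some
        rw [if_pos h, h1]
        simp
      · rw [if_neg h, mul_zero]
    · intro h
      exact absurd (Finset.mem_univ _) h
  have hcol : ∀ j, ∑ i, (m i j : ℝ) ^ 2 / κ i ≤ 1 := by
    intro j
    have h1 := hall (Pi.single j 1)
    have h2 : ∀ i, ∑ k, (Pi.single j (1 : ℝ) : J → ℝ) k * (m i k : ℝ) = m i j := by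
      intro i
      rw [Finset.sum_eq_single j]
      · rw [Pi.single_eq_same, one_mul]
      · intro k _ hk
        rw [Pi.single_eq_of_ne hk, zero_mul]
      · intro h
        exact absurd (Finset.mem_univ _) h
    have h3 : ∑ k, (Pi.single j (1 : ℝ) : J → ℝ) k ^ 2 = 1 := by
      rw [Finset.sum_eq_single j]
      · rw [Pi.single_eq_same, one_pow]
      · intro k _ hk
        rw [Pi.single_eq_of_ne hk]
        norm_num
      · intro h
        exact absurd (Finset.mem_univ _) h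
    rw [hgram, h3] at h1
    simp only [h2] at h1
    exact h1
  have hrow : ∀ i, ∑ j, (m i j : ℝ) ^ 2 ≤ κ i := by
    intro i
    have h1 := hall (fun j => (m i j : ℝ))
    rw [hgram] at h1
    have h2 : (∑ j, (m i j : ℝ) * m i j) ^ 2 / κ i ≤
        ∑ k, (∑ j, (m i j : ℝ) * m k j) ^ 2 / κ k :=
      Finset.single_le_sum (f := fun k => (∑ j, (m i j : ℝ) * m k j) ^ 2 / κ k)
        (fun k _ => div_nonneg (sq_nonneg _) (hκ k).le) (Finset.mem_univ i)
    have h3 : ∑ j, (m i j : ℝ) * m i j = ∑ j, (m i j : ℝ) ^ 2 :=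
      Finset.sum_congr rfl fun j _ => (sq _).symm
    rw [h3] at h2
    have h4 := h2.trans h1
    set q : ℝ := ∑ j, (m i j : ℝ) ^ 2 with hq
    have hq0 : 0 ≤ q := Finset.sum_nonneg fun j _ => sq_nonneg _
    rw [div_le_iff₀ (hκ i)] at h4
    by_contra h5
    push Not at h5
    have h6 := hκ i
    nlinarith
  refine ⟨hcol, hrow, fun h1 => ?_⟩
  have hsq1 : ∀ z : ℤ, z ≠ 0 → (1 : ℝ) ≤ (z : ℝ) ^ 2 := by
    intro z hz
    have h2 : 0 < z ^ 2 := by positivity
    have h3 : 1 ≤ z ^ 2 := by omega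
    exact_mod_cast h3
  refine ⟨fun i j => ?_, fun i j k hj hk => ?_, fun i k j hi hk => ?_⟩
  · have h2 : (m i j : ℝ) ^ 2 ≤ 1 := by
      have h3 := hrow i
      rw [h1 i] at h3
      exact (Finset.single_le_sum (f := fun j => (m i j : ℝ) ^ 2) (fun j _ => sq_nonneg _)
        (Finset.mem_univ j)).trans h3
    have h3 : m i j ^ 2 ≤ 1 := by exact_mod_cast h2
    have h4 : m i j ≤ 1 := by nlinarith
    have h5 : -1 ≤ m i j := by nlinarith
    omega
  · by_contra h
    have h3 := hrow i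
    rw [h1 i] at h3
    have h4 : (m i j : ℝ) ^ 2 + (m i k : ℝ) ^ 2 ≤ ∑ j, (m i j : ℝ) ^ 2 := by
      rw [← Finset.sum_pair (f := fun j => (m i j : ℝ) ^ 2) h]
      exact Finset.sum_le_sum_of_subset_of_nonneg (Finset.subset_univ _)
        fun _ _ _ => sq_nonneg _
    linarith [hsq1 _ hj, hsq1 _ hk]
  · by_contra h
    have h3 := hcol j
    simp only [h1, div_one] at h3
    have h4 : (m i j : ℝ) ^ 2 + (m k j : ℝ) ^ 2 ≤ ∑ i, (m i j : ℝ) ^ 2 := by
      rw [← Finset.sum_pair (f := fun i => (m i j : ℝ) ^ 2) h]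
      exact Finset.sum_le_sum_of_subset_of_nonneg (Finset.subset_univ _)
        fun _ _ _ => sq_nonneg _
    linarith [hsq1 _ hi, hsq1 _ hk]

end Pool.Agent.Results.MP_eea520_nt.FamilyMatching
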